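import Pool.Agent.TH6.PF.OddD

set_option autoImplicit false

/-! Automorphisms of hyperbolic quadratic forms over the integral group ring of a torsion-free group
of operator norm less than `3 / √2` are products of such automorphisms over the group rings of
cyclic subgroups. -/

namespace Pool.Agent.Results.MP_98022b_gt.AutomorphismsBelowThreshold

open TH57.Thr TH6.PF Matrix

theorem result (Γ : Type) [Group Γ]
    (htf : ∀ g : Γ, ∀ n : ℕ, 0 < n → g ^ n = 1 → g = 1) (ε : ℤ) (hε : ε = 1 ∨ ε = -1)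
    (c : ℝ) (hc0 : 0 < c) (hc : c ^ 2 < 9 / 2) (n : ℕ)
    (α : (Matrix (Fin n ⊕ Fin n) (Fin n ⊕ Fin n) (MonoidAlgebra ℤ Γ))ˣ)
    (hα : QIso ε α.val) (hN : NormLE α.val c) :
    α ∈ CycIso ℤ Γ (Fin n) ε :=
  VCIso_le_CycIso ε htf (odd_core ε (by rcases hε with rfl | rfl <;> norm_num) α hα α.val
    (fun _ _ _ => Iff.rfl) c hc0 hc hN)

end Pool.Agent.Results.MP_98022b_gt.AutomorphismsBelowThreshold
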