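import Pool.Agent.TH6.LF.NearF

set_option autoImplicit false

/-! For every group, `√2` is the exact critical distance from the hyperbolic form for nonsingular
quadratic forms over the integral group ring: closer forms are hyperbolic (up to Arf invariants),
and at distance at most `√2` every class of the even `L`-groups is represented. -/

namespace Pool.Agent.Results.MP_98022b_gt.DistanceFromHyperbolic

open TH57.Thr TH6.LF Matrix

theorem result (Γ : Type) [Group Γ] (ε : ℤ) (hε : ε = 1 ∨ ε = -1) :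
    (∀ (k : ℕ) (ψ : Matrix (Fin k ⊕ Fin k) (Fin k ⊕ Fin k) (MonoidAlgebra ℤ Γ)) (c : ℝ),
      c ^ 2 < 2 → IsUnit (ψ + ε • adj ψ) →
      NormLE ((ψ - hyp (MonoidAlgebra ℤ Γ) (Fin k))
        + ε • adj (ψ - hyp (MonoidAlgebra ℤ Γ) (Fin k))) c →
      ∃ (P : (Matrix (Fin k ⊕ Fin k) (Fin k ⊕ Fin k) (MonoidAlgebra ℤ Γ))ˣ)
        (D χ : Matrix (Fin k ⊕ Fin k) (Fin k ⊕ Fin k) (MonoidAlgebra ℤ Γ)),
        (∀ i j, i ≠ j → D i j = 0) ∧ (∀ i g, (D i i).coeff g ≠ 0 → g * g = 1) ∧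
        (ε = 1 → D = 0) ∧
        P.val * ψ * adj P.val = hyp (MonoidAlgebra ℤ Γ) (Fin k) + D + (χ - ε • adj χ)) ∧
    (∀ (k : ℕ) (ψ : Matrix (Fin k ⊕ Fin k) (Fin k ⊕ Fin k) (MonoidAlgebra ℤ Γ)),
      ∃ (m : ℕ) (P : (Matrix ((Fin k ⊕ Fin k) ⊕ (Fin m ⊕ Fin m))
          ((Fin k ⊕ Fin k) ⊕ (Fin m ⊕ Fin m)) (MonoidAlgebra ℤ Γ))ˣ),
        P ∈ commutator (Matrix ((Fin k ⊕ Fin k) ⊕ (Fin m ⊕ Fin m))
          ((Fin k ⊕ Fin k) ⊕ (Fin m ⊕ Fin m)) (MonoidAlgebra ℤ Γ))ˣ ∧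
        NormLE ((P.val * addHyp (Fin m) ψ * adj P.val
            - addHyp (Fin m) (hyp (MonoidAlgebra ℤ Γ) (Fin k)))
          + ε • adj (P.val * addHyp (Fin m) ψ * adj P.val
            - addHyp (Fin m) (hyp (MonoidAlgebra ℤ Γ) (Fin k)))) (Real.sqrt 2)) := by
  refine ⟨fun k ψ c hc hu hN => near_form ε hε c hc ψ hu hN, fun k ψ => ?_⟩
  obtain ⟨m, P, hP, hN⟩ := dist_form_fin k ψ
  exact ⟨m, P, hP, hN ε hε⟩

end Pool.Agent.Results.MP_98022b_gt.DistanceFromHyperbolic
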