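import Pool.Agent.TH6.LF.Form1

set_option autoImplicit false

/-! Every quadratic form over `ℤΓ` becomes, after adding a hyperbolic form, isometric to a form
whose adjoint has operator norm as close to `3 / √2` as one likes. -/

namespace Pool.Agent.Results.MP_98022b_gt.FormNormReduction

open TH57.Thr TH6.LF Matrix

theorem result (Γ : Type) [Group Γ] (c : ℝ) (hc : 9 / 2 < c ^ 2)
    (n : ℕ) (ψ : Matrix (Fin n) (Fin n) (MonoidAlgebra ℤ Γ)) :
    ∃ (m : ℕ) (P : (Matrix (Fin n ⊕ (Fin m ⊕ Fin m)) (Fin n ⊕ (Fin m ⊕ Fin m))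
        (MonoidAlgebra ℤ Γ))ˣ),
      P ∈ commutator (Matrix (Fin n ⊕ (Fin m ⊕ Fin m)) (Fin n ⊕ (Fin m ⊕ Fin m))
        (MonoidAlgebra ℤ Γ))ˣ ∧
      ∀ ε : ℤ, (ε = 1 ∨ ε = -1) →
        NormLE (P.val * addHyp (Fin m) ψ * adj P.val
          + ε • adj (P.val * addHyp (Fin m) ψ * adj P.val)) c :=
  form_reduction_fin n ψ c hc

end Pool.Agent.Results.MP_98022b_gt.FormNormReduction
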