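import Pool.Agent.TH6.LF.Blk

set_option autoImplicit false

/-! Quadratic forms over the integral group ring of a torsion-free group whose adjoint has operator
norm less than `3 / √2` are orthogonal sums of forms induced from cyclic subgroups. -/

namespace Pool.Agent.Results.MP_98022b_gt.FormsBelowThreshold

open TH57.Thr TH6.LF Matrix

theorem result (Γ : Type) [Group Γ]
    (htf : ∀ g : Γ, ∀ n : ℕ, 0 < n → g ^ n = 1 → g = 1) (ε : ℤ) (hε : ε = 1 ∨ ε = -1)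
    (c : ℝ) (hc0 : 0 < c) (hc : c ^ 2 < 9 / 2)
    (n : ℕ) (ψ : Matrix (Fin n) (Fin n) (MonoidAlgebra ℤ Γ)) (hψ : NormLE (ψ + ε • adj ψ) c) :
    ∃ (ρ : Fin n → Fin n) (u : Fin n → Γ) (C : Fin n → Subgroup Γ)
      (θ : ∀ a, Matrix {i // ρ i = a} {i // ρ i = a} (MonoidAlgebra ℤ (C a)))
      (χ : Matrix (Fin n) (Fin n) (MonoidAlgebra ℤ Γ)),
      (∀ a, IsCyclic (C a)) ∧
      Dm u * ψ * adj (Dm u) = indSum ρ C θ + (χ - ε • adj χ) ∧
      (IsUnit (ψ + ε • adj ψ) → ∀ a, IsUnit (θ a + ε • adj (θ a))) :=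
  forms_below htf ε hε c hc0 hc ψ hψ

end Pool.Agent.Results.MP_98022b_gt.FormsBelowThreshold
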